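import Mathlib

set_option autoImplicit false

namespace Pool.Agent.H.MP_61eff6_co

open Finset

/-- `G` contains `m` vertex-disjoint triangles all of whose edges have one colour. -/
def HasMono {V : Type} (G : SimpleGraph V) (c : Sym2 V → Bool) (m : ℕ) : Prop :=
  ∃ (b : Bool) (T : Fin m × Fin 3 → V), Function.Injective T ∧
    ∀ (i : Fin m) (a a' : Fin 3), a ≠ a' →
      G.Adj (T (i, a)) (T (i, a')) ∧ c s(T (i, a), T (i, a')) = b

abbrev VV (s : ℕ) : Type := (Fin 3 × Fin (4 * s)) ⊕ (Fin 2 × Fin (11 * s))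

def part {s : ℕ} : VV s → Fin 5
  | Sum.inl x => ⟨x.1.1, by have := x.1.2; omega⟩
  | Sum.inr x => ⟨x.1.1 + 3, by have := x.1.2; omega⟩

def GG (s : ℕ) : SimpleGraph (VV s) where
  Adj u w := u ≠ w ∧ (part u ≠ part w ∨ 3 ≤ part u)
  symm := ⟨fun u w h => ⟨h.1.symm, by
    rcases h.2 with h | h
    · exact Or.inl h.symm
    · by_cases e : part u = part w
      · exact Or.inr (e ▸ h)
      · exact Or.inl (Ne.symm e)⟩⟩
  loopless := ⟨fun u h => h.1 rfl⟩

theorem GG_adj {s : ℕ} (u w : VV s) :
    (GG s).Adj u w ↔ u ≠ w ∧ (part u ≠ part w ∨ 3 ≤ part u) := Iff.rfl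

instance (s : ℕ) : DecidableRel (GG s).Adj := fun u w =>
  inferInstanceAs (Decidable (u ≠ w ∧ (part u ≠ part w ∨ 3 ≤ part u)))

def col (p q : Fin 5) : Bool := decide (p + 1 = q ∨ q + 1 = p ∨ (p = 3 ∧ q = 3))

theorem col_symm : ∀ p q, col p q = col q p := by decide

def cc (s : ℕ) : Sym2 (VV s) → Bool :=
  Sym2.lift ⟨fun u w => col (part u) (part w), fun _ _ => col_symm _ _⟩

def KK (b : Bool) : Fin 5 := if b then 3 else 4

theorem fin_tri : ∀ (b : Bool) (p q r : Fin 5), (p ≠ q ∨ 3 ≤ p) → (p ≠ r ∨ 3 ≤ p) →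
    (q ≠ r ∨ 3 ≤ q) → col p q = b → col p r = b → col q r = b →
    (p = KK b ∧ q = KK b) ∨ (p = KK b ∧ r = KK b) ∨ (q = KK b ∧ r = KK b) := by decide

theorem card_VV (s : ℕ) : Fintype.card (VV s) = 34 * s := by
  simp only [Fintype.card_sum, Fintype.card_prod, Fintype.card_fin]
  omega

theorem no_mono (s m : ℕ) (hm : 11 * s < 2 * m) : ¬ HasMono (GG s) (cc s) m := by
  rintro ⟨b, T, hT, h⟩
  have key : ∀ i : Fin m, ∃ f : Fin 2 → Fin 3, Function.Injective f ∧
      ∀ j, part (T (i, f j)) = KK b := by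
    intro i
    have h1 := h i 0 1 (by decide)
    have h2 := h i 0 2 (by decide)
    have h3 := h i 1 2 (by decide)
    rcases fin_tri b _ _ _ h1.1.2 h2.1.2 h3.1.2 h1.2 h2.2 h3.2 with e | e | e
    · exact ⟨![0, 1], by decide, fun j => by fin_cases j; exact e.1; exact e.2⟩
    · exact ⟨![0, 2], by decide, fun j => by fin_cases j; exact e.1; exact e.2⟩
    · exact ⟨![1, 2], by decide, fun j => by fin_cases j; exact e.1; exact e.2⟩
  choose f f1 f2 using key
  have key2 : ∀ v : VV s, part v = KK b →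
      ∃ x : Fin (11 * s), v = Sum.inr (if b then 0 else 1, x) := by
    rintro (⟨k, x⟩ | ⟨k, x⟩) hv
    · exfalso
      have := congrArg Fin.val hv
      have := k.2
      cases b <;> simp [part, KK] at * <;> omega
    · refine ⟨x, ?_⟩
      have := congrArg Fin.val hv
      have hk : k = if b then 0 else 1 := by
        apply Fin.ext
        cases b <;> simp [part, KK] at * <;> omega
      rw [hk]
  choose g hg using fun z : Fin m × Fin 2 => key2 _ (f2 z.1 z.2)
  have hinj : Function.Injective g := by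
    rintro ⟨i, j⟩ ⟨i', j'⟩ e
    have e2 : T (i, f i j) = T (i', f i' j') := by
      rw [hg (i, j), hg (i', j'), e]
    have e3 := hT e2
    simp only [Prod.mk.injEq] at e3
    obtain ⟨rfl, e4⟩ := e3
    rw [f1 i e4]
  have := Fintype.card_le_of_injective g hinj
  simp only [Fintype.card_prod, Fintype.card_fin] at this
  omega

theorem deg_inl (s : ℕ) (x : Fin 3 × Fin (4 * s)) : (GG s).degree (Sum.inl x) = 30 * s := by
  have h1 : (univ.filter fun w => ¬ (GG s).Adj (Sum.inl x) w) =
      (univ : Finset (Fin (4 * s))).map ⟨fun a => Sum.inl (x.1, a), fun a a' e => by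
        simpa using e⟩ := by
    ext w
    simp only [mem_filter, mem_univ, true_and, mem_map, GG_adj]
    constructor
    · intro h
      have hp : part (Sum.inl x : VV s) = part w := by
        by_contra hc
        exact h ⟨fun e => hc (by rw [e]), Or.inl hc⟩
      rcases w with ⟨k, a⟩ | ⟨k, a⟩
      · refine ⟨a, ?_⟩
        have : x.1 = k := Fin.ext (by simpa [part] using hp)
        subst this
        rfl
      · exfalso
        have := congrArg Fin.val hp
        have := x.1.2
        simp only [part] at *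
        omega
    · rintro ⟨a, rfl⟩ ⟨-, h | h⟩
      · exact h rfl
      · have := x.1.2
        simp only [part, Fin.le_def] at h
        have e : ((3 : Fin 5) : ℕ) = 3 := rfl
        omega
  have h2 := card_filter_add_card_filter_not (s := (univ : Finset (VV s)))
    (fun w => (GG s).Adj (Sum.inl x) w)
  rw [h1, card_map, card_univ, card_univ, card_VV, Fintype.card_fin] at h2
  rw [← SimpleGraph.card_neighborFinset_eq_degree, SimpleGraph.neighborFinset_eq_filter]
  omega

theorem deg_inr (s : ℕ) (x : Fin 2 × Fin (11 * s)) : (GG s).degree (Sum.inr x) + 1 = 34 * s := by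
  have h1 : (GG s).neighborFinset (Sum.inr x) = univ.erase (Sum.inr x) := by
    ext w
    simp only [SimpleGraph.mem_neighborFinset, mem_erase, mem_univ, and_true, GG_adj]
    refine ⟨fun h => h.1.symm, fun h => ⟨h.symm, Or.inr ?_⟩⟩
    simp only [part, Fin.le_def]
    have e : ((3 : Fin 5) : ℕ) = 3 := rfl
    omega
  rw [← SimpleGraph.card_neighborFinset_eq_degree, h1, card_erase_add_one (mem_univ _), card_univ,
    card_VV]

theorem minDeg (s : ℕ) (hs : 1 ≤ s) : (GG s).minDegree = 30 * s := by
  have x : Fin 3 × Fin (4 * s) := (0, ⟨0, by omega⟩)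
  have : Nonempty (VV s) := ⟨Sum.inl x⟩
  apply le_antisymm
  · rw [← deg_inl s x]
    exact SimpleGraph.minDegree_le_degree _ _
  · apply SimpleGraph.le_minDegree_of_forall_le_degree
    rintro (v | v)
    · rw [deg_inl]
    · have := deg_inr s v
      omega

end Pool.Agent.H.MP_61eff6_co
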